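import Mathlib

open Set Filter Topology

namespace Pool.Agent.Results.MP_c4a8f9_gt.NotPreserved

/-- `C_p(X, G)` as a subgroup of `G ^ X` -/
def Cp (X G : Type) [TopologicalSpace X] [AddGroup G] [TopologicalSpace G]
    [IsTopologicalAddGroup G] : AddSubgroup (X → G) where
  carrier := {f | Continuous f}
  add_mem' hf hg := hf.out.add hg.out
  zero_mem' := continuous_const
  neg_mem' hf := hf.out.neg

/-- selectively sequentially pseudocompact -/
def SSP (X : Type) [TopologicalSpace X] : Prop :=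
  ∀ U : ℕ → Set X, (∀ n, IsOpen (U n) ∧ (U n).Nonempty) → ∃ x : ℕ → X, (∀ n, x n ∈ U n) ∧
    ∃ (φ : ℕ → ℕ) (p : X), StrictMono φ ∧ Tendsto (x ∘ φ) atTop (𝓝 p)

/-- selectively pseudocompact -/
def SP (X : Type) [TopologicalSpace X] : Prop :=
  ∀ U : ℕ → Set X, (∀ n, IsOpen (U n) ∧ (U n).Nonempty) → Pairwise (Function.onFun Disjoint U) →
    ∃ x : ℕ → X, (∀ n, x n ∈ U n) ∧ ¬ IsClosed (range x)

theorem result : ∃ (G : Type) (_ : AddCommGroup G) (_ : TopologicalSpace G)
    (_ : IsTopologicalAddGroup G) (X Y : Type) (_ : TopologicalSpace X) (_ : TopologicalSpace Y),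
    T2Space G ∧ Nontrivial G ∧ PathConnectedSpace G ∧ T35Space X ∧ T35Space Y ∧ Infinite X ∧
    Nonempty (Cp X G ≃ₜ+ Cp Y G) ∧ Dense (Cp X G : Set (X → G)) ∧ Dense (Cp Y G : Set (Y → G)) ∧
    SSP X ∧ SP X ∧ ¬ SSP Y ∧ ¬ SP Y := by
  have hd : ∀ (Z : Type) [TopologicalSpace Z] [T4Space Z],
      Dense (Cp Z (ℕ → ℝ) : Set (Z → ℕ → ℝ)) := fun Z _ _ =>
    dense_iff_inter_open.2 fun U hU ⟨g, hg⟩ => by
      obtain ⟨F, u, hu, hF⟩ := isOpen_pi_iff.1 hU g hg
      obtain ⟨f, hf⟩ := ContinuousMap.exists_restrict_eq (Y := ℕ → ℝ) F.finite_toSet.isClosed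
        ⟨fun i => g i, continuous_of_discreteTopology⟩
      exact ⟨f, hF fun i hi => (congr($hf ⟨i, hi⟩) : f i = g i) ▸ (hu i hi).2, f.continuous⟩
  have h1 : ∀ U : ℕ → Set unitInterval, (∀ n, IsOpen (U n) ∧ (U n).Nonempty) →
      ∃ x : ℕ → unitInterval, (∀ n, x n ∈ U n) ∧
        ∃ (φ : ℕ → ℕ) (p : unitInterval), StrictMono φ ∧ Tendsto (x ∘ φ) atTop (𝓝 p) := by
    intro U hU
    choose x hx using fun n => (hU n).2
    obtain ⟨p, φ, h⟩ := CompactSpace.tendsto_subseq x
    exact ⟨x, hx, φ, p, h⟩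
  have hU : ∀ n : ℕ, IsOpen {q : unitInterval × ℕ | q.2 = n} ∧
      {q : unitInterval × ℕ | q.2 = n}.Nonempty := fun n =>
    ⟨(isOpen_discrete {n}).preimage continuous_snd, (0, n), rfl⟩
  refine ⟨ℕ → ℝ, inferInstance, inferInstance, inferInstance, unitInterval, unitInterval × ℕ,
    inferInstance, inferInstance, inferInstance, inferInstance, inferInstance, inferInstance,
    inferInstance, (Icc_infinite zero_lt_one).to_subtype, ⟨?_⟩, hd _, hd _, h1,
    fun U hU hU' => ?_, fun h => ?_, fun h => ?_⟩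
  · exact
      { toFun := fun f => ⟨fun q k => f.1 q.1 (Nat.pair q.2 k), continuous_pi fun k =>
          continuous_prod_of_discrete_right.2 fun n =>
            (continuous_apply (Nat.pair n k)).comp f.2⟩
        invFun := fun g => ⟨fun x m => g.1 (x, m.unpair.1) m.unpair.2, continuous_pi fun m =>
          (continuous_apply _).comp (g.2.out.comp (continuous_id.prodMk continuous_const))⟩
        left_inv := fun f => by ext; simp
        right_inv := fun g => by ext; simp
        map_add' := fun _ _ => rfl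
        continuous_toFun := Continuous.subtype_mk (continuous_pi fun q => continuous_pi fun k =>
          (continuous_apply_apply q.1 (Nat.pair q.2 k)).comp continuous_subtype_val) _
        continuous_invFun := Continuous.subtype_mk (continuous_pi fun q => continuous_pi fun k =>
          (continuous_apply_apply (q, k.unpair.1) k.unpair.2).comp continuous_subtype_val) _ }
  · obtain ⟨x, hx, φ, p, hφ, hp⟩ := h1 U hU
    refine ⟨x, hx, fun h => ?_⟩
    obtain ⟨m, rfl⟩ := h.mem_of_tendsto hp (Eventually.of_forall fun k => ⟨_, rfl⟩)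
    obtain ⟨k, h2, h3⟩ := ((hp.eventually ((hU m).1.mem_nhds (hx m))).and
      (hφ.tendsto_atTop.eventually_gt_atTop m)).exists
    exact disjoint_left.1 (hU' h3.ne') (hx _) h2
  · obtain ⟨x, hx, φ, p, hφ, hp⟩ := h _ hU
    obtain ⟨k, h2, h3⟩ := ((hp.eventually ((hU p.2).1.mem_nhds rfl)).and
      (hφ.tendsto_atTop.eventually_gt_atTop p.2)).exists
    exact h3.ne' ((hx _).symm.trans h2)
  · obtain ⟨x, hx, h⟩ := h _ hU fun m n h => disjoint_left.2 fun q h1 h2 => h (h1.symm.trans h2)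
    refine h (isOpen_compl_iff.1 (isOpen_iff_mem_nhds.2 fun p hp => ?_))
    filter_upwards [(hU p.2).1.mem_nhds rfl,
      isOpen_compl_singleton.mem_nhds fun e : p = x p.2 => hp ⟨_, e.symm⟩] with q h1 h2
    rintro ⟨n, rfl⟩
    exact h2 (congrArg x ((hx n).symm.trans h1))

end Pool.Agent.Results.MP_c4a8f9_gt.NotPreserved
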